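import Mathlib

/-!
# The irreducible factor through a given prime ideal
-/

set_option autoImplicit false

open Polynomial

namespace Pool.Agent.W481.BQN

theorem dim_localization {V R : Type} [CommRing V] [CommRing R] [Algebra V R]
    [Algebra.IsIntegral V R] (hV : ringKrullDim V ≤ 1) (p : Ideal R) [p.IsPrime] :
    ringKrullDim (Localization.AtPrime p) ≤ 1 := by
  have h1 : ringKrullDim R ≤ ringKrullDim V := by
    refine Order.krullDim_le_of_strictMono (PrimeSpectrum.comap (algebraMap V R)) ?_
    intro a b hab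
    exact Ideal.IsIntegral.comap_lt_comap (R := V) (I := a.asIdeal) (J := b.asIdeal) hab
  rw [IsLocalization.AtPrime.ringKrullDim_eq_height p]
  exact (Ideal.height_le_ringKrullDim_of_ne_top (Ideal.IsPrime.ne_top ‹_›)).trans (h1.trans hV)

theorem exists_factor {V : Type} [CommRing V] [IsDomain V] [IsPrincipalIdealRing V]
    (u : V[X]) (hu : u.Monic) (m : Ideal V[X]) [hm : m.IsPrime] (hum : u ∈ m) :
    ∃ u₁ w : V[X], u = u₁ * w ∧ u₁.Monic ∧ Prime u₁ ∧ u₁ ∈ m := by
  have hu0 : u ≠ 0 := hu.ne_zero
  have h1 := UniqueFactorizationMonoid.factors_prod hu0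
  have h2 : (UniqueFactorizationMonoid.factors u).prod ∈ m := by
    obtain ⟨c, hc⟩ := h1.symm
    rw [← hc]
    exact m.mul_mem_right _ hum
  obtain ⟨p, hp, hpm⟩ := (hm.multiset_prod_mem_iff_exists_mem _).1 h2
  have hpp : Prime p := UniqueFactorizationMonoid.prime_of_factor p hp
  have hpd : p ∣ u := UniqueFactorizationMonoid.dvd_of_mem_factors hp
  obtain ⟨w, hw⟩ := hpd
  have hlc : p.leadingCoeff * w.leadingCoeff = 1 := by
    rw [← leadingCoeff_mul, ← hw]
    exact hu
  have hm1 : (p * C w.leadingCoeff).Monic := by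
    rw [Monic, leadingCoeff_mul, leadingCoeff_C, hlc]
  have hu2 : C w.leadingCoeff * C p.leadingCoeff = (1 : V[X]) := by
    rw [← C_mul, mul_comm, hlc, C_1]
  refine ⟨p * C w.leadingCoeff, C p.leadingCoeff * w, ?_, hm1, ?_, m.mul_mem_right _ hpm⟩
  · calc u = p * (C w.leadingCoeff * C p.leadingCoeff) * w := by rw [hu2, mul_one, hw]
      _ = _ := by ring
  · have ha : Associated p (p * C w.leadingCoeff) :=
      ⟨⟨C w.leadingCoeff, C p.leadingCoeff, hu2, by rw [mul_comm, hu2]⟩, rfl⟩
    exact ha.prime hpp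

theorem integral_quot {V : Type} [CommRing V] (u : V[X]) (hu : u.Monic) :
    Algebra.IsIntegral V (V[X] ⧸ Ideal.span {u}) := by
  have h : Module.Finite V (AdjoinRoot u) := hu.finite_adjoinRoot
  exact (Algebra.IsIntegral.of_finite V (AdjoinRoot u) : Algebra.IsIntegral V (AdjoinRoot u))

theorem dim_pid (V : Type) [CommRing V] [IsDomain V] [IsPrincipalIdealRing V] :
    ringKrullDim V ≤ 1 := by
  have h : Ring.KrullDimLE 1 V := inferInstance
  exact Ring.krullDimLE_iff.1 h

theorem fac (h : ∀ (S : Type) [CommRing S] [IsRegularLocalRing S], ringKrullDim S ≤ 1 →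
      IsDomain S ∧ IsPrincipalIdealRing S)
    (V : Type) [CommRing V] [IsDomain V] [IsPrincipalIdealRing V]
    (u : V[X]) (hu : u.Monic) (hreg : IsRegularRing (V[X] ⧸ Ideal.span {u}))
    (m : Ideal V[X]) [hm : m.IsPrime] (hum : u ∈ m) :
    ∃ u₁ w : V[X], u = u₁ * w ∧ u₁.Monic ∧ IsDedekindDomain (V[X] ⧸ Ideal.span {u₁}) ∧
      w ∉ m := by
  obtain ⟨u₁, w, huw, hmon, hprime, hu₁m⟩ := exists_factor u hu m hum
  have hint := integral_quot u hu
  have hloc : ∀ (p : Ideal (V[X] ⧸ Ideal.span {u})) [p.IsPrime],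
      IsDomain (Localization.AtPrime p) ∧ IsPrincipalIdealRing (Localization.AtPrime p) := by
    intro p hp
    have : IsRegularLocalRing (Localization.AtPrime p) :=
      hreg.isRegularLocalRing_localization p
    exact h _ (dim_localization (V := V) (dim_pid V) p)
  have hu0 : u ≠ 0 := hu.ne_zero
  have hle : Ideal.span {u} ≤ Ideal.span {u₁} := by
    rw [Ideal.span_singleton_le_span_singleton, huw]
    exact dvd_mul_right _ _
  refine ⟨u₁, w, huw, hmon, ?_, ?_⟩
  · have hpr : (Ideal.span {u₁}).IsPrime := (Ideal.span_singleton_prime hprime.ne_zero).2 hprime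
    have hdom : IsDomain (V[X] ⧸ Ideal.span {u₁}) := Ideal.Quotient.isDomain _
    have hD : IsDedekindDomainDvr (V[X] ⧸ Ideal.span {u₁}) := by
      refine { toIsNoetherian := inferInstance, is_dvr_at_nonzero_prime := ?_ }
      intro P hP0 hP
      set f : (V[X] ⧸ Ideal.span {u}) →+* (V[X] ⧸ Ideal.span {u₁}) :=
        Ideal.Quotient.factor hle with hf
      have hfs : Function.Surjective f := Ideal.Quotient.factor_surjective hle
      have hs := RingHom.surjectiveOnStalks_of_surjective hfs P hP
      obtain ⟨-, hpir⟩ := hloc (P.comap f)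
      have hpir2 : IsPrincipalIdealRing (Localization.AtPrime P) :=
        IsPrincipalIdealRing.of_surjective _ hs
      refine { toIsPrincipalIdealRing := hpir2, toIsLocalRing := inferInstance,
               not_a_field' := ?_ }
      intro hmb
      apply hP0
      rw [eq_bot_iff]
      intro x hx
      have h1 : algebraMap _ (Localization.AtPrime P) x ∈
          IsLocalRing.maximalIdeal (Localization.AtPrime P) :=
        (IsLocalization.AtPrime.to_map_mem_maximal_iff _ P x).2 hx
      rw [hmb, Ideal.mem_bot] at h1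
      have h2 : x = 0 := by
        apply IsLocalization.injective (Localization.AtPrime P)
          (Ideal.primeCompl_le_nonZeroDivisors P)
        rw [h1, map_zero]
      rw [h2]
      exact Ideal.zero_mem _
    infer_instance
  · intro hwm
    set q : Ideal (V[X] ⧸ Ideal.span {u}) := m.map (Ideal.Quotient.mk (Ideal.span {u})) with hq
    have hker : RingHom.ker (Ideal.Quotient.mk (Ideal.span {u})) ≤ m := by
      rw [Ideal.mk_ker, Ideal.span_singleton_le_iff_mem]
      exact hum
    have hqp : q.IsPrime := Ideal.map_isPrime_of_surjective Ideal.Quotient.mk_surjective hker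
    have hmem : ∀ x, Ideal.Quotient.mk (Ideal.span {u}) x ∈ q → x ∈ m := by
      intro x hx
      have h1 : x ∈ q.comap (Ideal.Quotient.mk (Ideal.span {u})) := hx
      rw [hq, Ideal.comap_map_of_surjective _ Ideal.Quotient.mk_surjective] at h1
      have h2 : (⊥ : Ideal (V[X] ⧸ Ideal.span {u})).comap (Ideal.Quotient.mk (Ideal.span {u})) ≤
          m := hker
      rw [sup_eq_left.2 h2] at h1
      exact h1
    obtain ⟨hdom, -⟩ := hloc q
    have hz : algebraMap _ (Localization.AtPrime q) (Ideal.Quotient.mk (Ideal.span {u}) u₁) *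
        algebraMap _ (Localization.AtPrime q) (Ideal.Quotient.mk (Ideal.span {u}) w) = 0 := by
      rw [← map_mul, ← map_mul, ← huw]
      have h1 : Ideal.Quotient.mk (Ideal.span {u}) u = 0 :=
        Ideal.Quotient.eq_zero_iff_mem.2 (Ideal.mem_span_singleton_self u)
      rw [h1, map_zero]
    have hkill : ∀ x, algebraMap _ (Localization.AtPrime q)
        (Ideal.Quotient.mk (Ideal.span {u}) x) = 0 → ∃ s, s ∉ m ∧ u ∣ s * x := by
      intro x hx
      rw [IsLocalization.map_eq_zero_iff q.primeCompl] at hx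
      obtain ⟨⟨s', hs'⟩, hsx⟩ := hx
      obtain ⟨s, rfl⟩ := Ideal.Quotient.mk_surjective s'
      refine ⟨s, fun hsm => hs' (Ideal.mem_map_of_mem _ hsm), ?_⟩
      simp only at hsx
      rw [← map_mul, Ideal.Quotient.eq_zero_iff_mem, Ideal.mem_span_singleton] at hsx
      exact hsx
    rcases mul_eq_zero.1 hz with h1 | h1
    · obtain ⟨s, hs, c, hc⟩ := hkill _ h1
      apply hs
      have h2 : u₁ * s = u₁ * (w * c) := by
        rw [mul_comm u₁ s, hc, huw]
        ring
      rw [mul_left_cancel₀ hprime.ne_zero h2]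
      exact m.mul_mem_right _ hwm
    · obtain ⟨s, hs, c, hc⟩ := hkill _ h1
      apply hs
      have hw0 : w ≠ 0 := by
        rintro rfl
        rw [mul_zero] at huw
        exact hu0 huw
      have h2 : w * s = w * (u₁ * c) := by
        rw [mul_comm w s, hc, huw]
        ring
      rw [mul_left_cancel₀ hw0 h2]
      exact m.mul_mem_right _ hu₁m

end Pool.Agent.W481.BQN

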