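import Pool.Agent.W394.BQN.Stm2
import Pool.Agent.W481.BQN.FacCore

/-!
# The irreducible factor through a given prime ideal
-/

set_option autoImplicit false

open Polynomial

namespace Pool.Agent.W481.BQN

open Pool.Agent.W394.BQN

theorem t_FAC (h : S_RD) : S_FAC := by
  intro V _ _ _ u hu hreg m hm hum
  exact fac h V u hu hreg m hum

end Pool.Agent.W481.BQN

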